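import Pool.Agent.E8helper71.CP.Y706.BI.Stm

namespace Pool.Agent.E8helper71.CP.Y165.BI

open Finset Pool.Agent.E8helper71.CP.Y706.BI

universe u

/-- the average as a linear map -/
noncomputable def AvL {X : Type*} {d : ℕ} (r : X → Fin d → X) : (X → ℝ) →ₗ[ℝ] (X → ℝ) where
  toFun := Av r
  map_add' φ ψ := by
    funext y
    simp only [Av, Pi.add_apply, sum_add_distrib, add_div]
  map_smul' c φ := by
    funext y
    simp only [Av, Pi.smul_apply, smul_eq_mul, ← mul_sum, RingHom.id_apply, mul_div_assoc]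

section

variable {X : Type u} {d : ℕ} (r : X → Fin d → X) (f : X → X) (E : X → X → Prop)

lemma it_eq (n : ℕ) (φ : X → ℝ) : (Av r)^[n] φ = ((AvL r) ^ n) φ := by
  rw [Module.End.pow_apply]; rfl

lemma it_add (n : ℕ) (φ ψ : X → ℝ) (b : X) :
    (Av r)^[n] (fun y => φ y + ψ y) b = (Av r)^[n] φ b + (Av r)^[n] ψ b := by
  have h := congrFun (map_add ((AvL r) ^ n) φ ψ) b
  simp only [Pi.add_apply, ← it_eq] at h
  exact h

lemma it_smul (n : ℕ) (c : ℝ) (φ : X → ℝ) (b : X) :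
    (Av r)^[n] (fun y => c * φ y) b = c * (Av r)^[n] φ b := by
  have h := congrFun (map_smul ((AvL r) ^ n) c φ) b
  simp only [Pi.smul_apply, ← it_eq, smul_eq_mul] at h
  exact h

lemma it_sum {ι : Type*} (s : Finset ι) (n : ℕ) (φ : ι → X → ℝ) (b : X) :
    (Av r)^[n] (fun y => ∑ i ∈ s, φ i y) b = ∑ i ∈ s, (Av r)^[n] (φ i) b := by
  have h := congrFun (map_sum ((AvL r) ^ n) φ s) b
  rw [Finset.sum_apply] at h
  simp only [← it_eq] at h
  have h0 : (fun y => ∑ i ∈ s, φ i y) = ∑ i ∈ s, φ i := by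
    funext y
    rw [Finset.sum_apply]
  rw [h0]
  exact h

lemma it_const (hd : 2 ≤ d) (n : ℕ) (c : ℝ) (b : X) :
    (Av r)^[n] (fun _ => c) b = c := by
  induction n generalizing b with
  | zero => rfl
  | succ n ih =>
    rw [Function.iterate_succ_apply']
    simp only [Av]
    have hd' : (d : ℝ) ≠ 0 := by positivity
    calc (∑ l, (Av r)^[n] (fun _ => c) (r b l)) / (d : ℝ) = (∑ _l : Fin d, c) / (d : ℝ) := by
          congr 1
          exact sum_congr rfl fun l _ => ih _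
      _ = c := by
          rw [sum_const, card_univ, Fintype.card_fin, nsmul_eq_mul]
          field_simp

variable {f E}

lemma E_iter (hf : ∀ x y, E x y → E (f x) (f y)) (k : ℕ) {x y : X} (h : E x y) :
    E (f^[k] x) (f^[k] y) := by
  induction k generalizing x y with
  | zero => exact h
  | succ k ih =>
    rw [Function.iterate_succ_apply, Function.iterate_succ_apply]
    exact ih (hf _ _ h)

variable {r}

lemma it_mono (hE : Equivalence E) (hf : ∀ x y, E x y → E (f x) (f y))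
    (hr : ∀ y l, E (f (r y l)) y) (k : ℕ) (φ ψ : X → ℝ) (b : X)
    (h : ∀ y, E (f^[k] y) b → φ y ≤ ψ y) : (Av r)^[k] φ b ≤ (Av r)^[k] ψ b := by
  induction k generalizing φ ψ with
  | zero => exact h b (hE.refl b)
  | succ k ih =>
    rw [Function.iterate_succ_apply, Function.iterate_succ_apply]
    apply ih
    intro y hy
    simp only [Av]
    apply div_le_div_of_nonneg_right _ (Nat.cast_nonneg d)
    apply sum_le_sum
    intro l _
    apply h
    rw [Function.iterate_succ_apply]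
    exact hE.trans (E_iter hf k (hr y l)) hy

lemma it_congr (hE : Equivalence E) (hf : ∀ x y, E x y → E (f x) (f y))
    (hr : ∀ y l, E (f (r y l)) y) (k : ℕ) (φ ψ : X → ℝ) (b : X)
    (h : ∀ y, E (f^[k] y) b → φ y = ψ y) : (Av r)^[k] φ b = (Av r)^[k] ψ b :=
  le_antisymm (it_mono hE hf hr k φ ψ b fun y hy => (h y hy).le)
    (it_mono hE hf hr k ψ φ b fun y hy => (h y hy).ge)

/-- invariance -/
lemma it_inv (hf : ∀ x y, E x y → E (f x) (f y))
    (hr : ∀ y l, E (f (r y l)) y) (k : ℕ) (φ ψ : X → ℝ) (hψ : ∀ x y, E x y → ψ x = ψ y) :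
    (Av r)^[k] (fun y => φ y * ψ (f^[k] y)) = fun y => ψ y * (Av r)^[k] φ y := by
  induction k generalizing φ with
  | zero =>
    funext y
    simp only [Function.iterate_zero, id_eq]
    ring
  | succ k ih =>
    rw [Function.iterate_succ_apply, Function.iterate_succ_apply]
    have h1 : Av r (fun y => φ y * ψ (f^[k + 1] y)) = fun y => Av r φ y * ψ (f^[k] y) := by
      funext y
      simp only [Av]
      rw [div_mul_eq_mul_div, sum_mul]
      congr 1
      apply sum_congr rfl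
      intro l _
      rw [Function.iterate_succ_apply]
      rw [hψ _ _ (E_iter hf k (hr y l))]
    rw [h1, ih]

variable {g : X → X → ℝ}

/-- one function moved down -/
lemma it_g (hE : Equivalence E) (hf : ∀ x y, E x y → E (f x) (f y))
    (hr : ∀ y l, E (f (r y l)) y)
    (hg : ∀ x y, ¬ E (f x) y → ∑ l, g x (r y l) = g (f x) y) (j : ℕ) (z y : X)
    (h : ¬ E (f^[j] z) y) :
    (Av r)^[j] (fun y => g z y) y = (1 / (d : ℝ)) ^ j * g (f^[j] z) y := by
  induction j generalizing z with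
  | zero => simp
  | succ j ih =>
    rw [Function.iterate_succ_apply] at h
    rw [Function.iterate_succ_apply (Av r)]
    have h1 : (Av r)^[j] (Av r fun y => g z y) y
        = (Av r)^[j] (fun y => (1 / (d : ℝ)) * g (f z) y) y := by
      apply it_congr hE hf hr
      intro y' hy'
      have h2 : ¬ E (f z) y' := by
        intro h3
        exact h (hE.trans (E_iter hf j h3) hy')
      simp only [Av]
      rw [hg _ _ h2]
      ring
    rw [h1, it_smul, ih _ h, Function.iterate_succ_apply, pow_succ]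
    ring

/-- the second moments -/
lemma it_sq (hd : 2 ≤ d) (hE : Equivalence E) (hf : ∀ x y, E x y → E (f x) (f y))
    (hr : ∀ y l, E (f (r y l)) y)
    (hg : ∀ x y, ¬ E (f x) y → ∑ l, g x (r y l) = g (f x) y) {ρ : ℝ} (hρ : 0 < ρ)
    (hlow : ∀ x y, ¬ E x y → -(2 * ρ) ≤ g x y) (b : X) (k : ℕ) (z : X)
    (h : ∀ j ≤ k, ¬ E (f^[j] z) b ∧ g (f^[j] z) b ≤ 2 * ρ) :
    (Av r)^[k] (fun y => (g z y + 2 * ρ) ^ 2) b ≤ (4 * d * ρ) ^ 2 := by
  have hd2 : (2 : ℝ) ≤ d := by exact_mod_cast hd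
  induction k generalizing z with
  | zero =>
    obtain ⟨h1, h2⟩ := h 0 le_rfl
    simp only [Function.iterate_zero, id_eq] at h1 h2 ⊢
    have h3 := hlow _ _ h1
    apply pow_le_pow_left₀ (by linarith)
    nlinarith
  | succ k ih =>
    rw [Function.iterate_succ_apply]
    have hz : ∀ j ≤ k, ¬ E (f^[j] (f z)) b ∧ g (f^[j] (f z)) b ≤ 2 * ρ := by
      intro j hj
      have := h (j + 1) (by omega)
      rwa [Function.iterate_succ_apply] at this
    have h1 : (Av r)^[k] (Av r fun y => (g z y + 2 * ρ) ^ 2) b ≤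
        (Av r)^[k] (fun y => (1 / (d : ℝ)) * ((3 / 2) * (g (f z) y + 2 * ρ) ^ 2 +
          3 * (2 * ((d : ℝ) - 1) * ρ) ^ 2)) b := by
      apply it_mono hE hf hr
      intro y hy
      have h2 : ¬ E (f z) y := by
        intro h3
        have h4 := (hz k le_rfl).1
        exact h4 (hE.trans (E_iter hf k h3) hy)
      have h5 : ∀ l, 0 ≤ g z (r y l) + 2 * ρ := by
        intro l
        have h6 : ¬ E z (r y l) := by
          intro h7
          exact h2 (hE.trans (hf _ _ h7) (hr y l))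
        have := hlow _ _ h6
        linarith
      simp only [Av]
      rw [div_eq_mul_inv, mul_comm, ← one_div]
      apply mul_le_mul_of_nonneg_left _ (by positivity)
      have h8 : ∑ l, (g z (r y l) + 2 * ρ) ^ 2 ≤ (∑ l, (g z (r y l) + 2 * ρ)) ^ 2 := by
        exact Finset.sum_sq_le_sq_sum_of_nonneg (fun l _ => h5 l)
      refine h8.trans ?_
      rw [sum_add_distrib, hg _ _ h2, sum_const, card_univ, Fintype.card_fin, nsmul_eq_mul]
      have h9 : g (f z) y + (d : ℝ) * (2 * ρ) = (g (f z) y + 2 * ρ) + 2 * ((d : ℝ) - 1) * ρ := by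
        ring
      rw [h9]
      nlinarith [sq_nonneg ((g (f z) y + 2 * ρ) - 2 * (2 * ((d : ℝ) - 1) * ρ))]
    refine h1.trans ?_
    rw [it_smul, it_add r k (fun y => (3 / 2) * (g (f z) y + 2 * ρ) ^ 2)
      (fun _ => 3 * (2 * ((d : ℝ) - 1) * ρ) ^ 2), it_smul, it_const r hd]
    have h3 := ih (f z) hz
    have h4 : (3 / 2) * (Av r)^[k] (fun y => (g (f z) y + 2 * ρ) ^ 2) b +
        3 * (2 * ((d : ℝ) - 1) * ρ) ^ 2 ≤ (4 * d * ρ) ^ 2 * d := by
      have h5 : (3 / 2) * (4 * d * ρ) ^ 2 + 3 * (2 * ((d : ℝ) - 1) * ρ) ^ 2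
          ≤ (4 * d * ρ) ^ 2 * d := by
        obtain ⟨s, hs⟩ : ∃ s : ℝ, (d : ℝ) = 2 + s := ⟨d - 2, by ring⟩
        have hs0 : 0 ≤ s := by linarith
        rw [hs]
        have h6 : (4 * (2 + s) * ρ) ^ 2 * (2 + s) - ((3 / 2) * (4 * (2 + s) * ρ) ^ 2 +
            3 * (2 * ((2 + s) - 1) * ρ) ^ 2) = ρ ^ 2 * (20 + 72 * s + 60 * s ^ 2 + 16 * s ^ 3) := by
          ring
        have h7 : 0 ≤ ρ ^ 2 * (20 + 72 * s + 60 * s ^ 2 + 16 * s ^ 3) := by positivity
        linarith
      linarith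
    rw [one_div, inv_mul_le_iff₀ (by linarith)]
    linarith

lemma it_prod (hd : 2 ≤ d) (hE : Equivalence E) (hf : ∀ x y, E x y → E (f x) (f y))
    (hr : ∀ y l, E (f (r y l)) y)
    (hg : ∀ x y, ¬ E (f x) y → ∑ l, g x (r y l) = g (f x) y) {ρ : ℝ} (hρ : 0 < ρ)
    (hlow : ∀ x y, ¬ E x y → -(2 * ρ) ≤ g x y) (b : X) (k : ℕ) (z z' : X)
    (h : ∀ j ≤ k, ¬ E (f^[j] z) b ∧ g (f^[j] z) b ≤ 2 * ρ)
    (h' : ∀ j ≤ k, ¬ E (f^[j] z') b ∧ g (f^[j] z') b ≤ 2 * ρ) :
    (Av r)^[k] (fun y => g z y * g z' y) b ≤ 17 * d ^ 2 * ρ ^ 2 := by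
  have hd2 : (2 : ℝ) ≤ d := by exact_mod_cast hd
  have h1 := it_sq hd hE hf hr hg hρ hlow b k z h
  have h2 := it_sq hd hE hf hr hg hρ hlow b k z' h'
  have h3 : (Av r)^[k] (fun y => g z y * g z' y) b ≤
      (Av r)^[k] (fun y => (1 / 2) * (g z y + 2 * ρ) ^ 2 +
        ((1 / 2) * (g z' y + 2 * ρ) ^ 2 + 4 * ρ ^ 2)) b := by
    apply it_mono hE hf hr
    intro y hy
    have h4 : ¬ E z y := by
      intro h3
      exact (h k le_rfl).1 (hE.trans (E_iter hf k h3) hy)
    have h5 : ¬ E z' y := by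
      intro h3
      exact (h' k le_rfl).1 (hE.trans (E_iter hf k h3) hy)
    have h6 := hlow _ _ h4
    have h7 := hlow _ _ h5
    nlinarith [sq_nonneg (g z y - g z' y)]
  rw [it_add r k (fun y => (1 / 2) * (g z y + 2 * ρ) ^ 2)
    (fun y => (1 / 2) * (g z' y + 2 * ρ) ^ 2 + 4 * ρ ^ 2),
    it_add r k (fun y => (1 / 2) * (g z' y + 2 * ρ) ^ 2) (fun _ => 4 * ρ ^ 2), it_smul, it_smul,
    it_const r hd] at h3
  have h8 : (4 * (d : ℝ) * ρ) ^ 2 + 4 * ρ ^ 2 ≤ 17 * d ^ 2 * ρ ^ 2 := by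
    have : 4 ≤ (d : ℝ) ^ 2 := by nlinarith
    nlinarith [mul_nonneg (sub_nonneg.2 this) (sq_nonneg ρ)]
  linarith

/-- the correlations -/
lemma it_corr (hd : 2 ≤ d) (hE : Equivalence E) (hf : ∀ x y, E x y → E (f x) (f y))
    (hr : ∀ y l, E (f (r y l)) y) (hgs : ∀ x y, g x y = g y x)
    (hgE : ∀ x x' y, E x x' → g x y = g x' y)
    (hg : ∀ x y, ¬ E (f x) y → ∑ l, g x (r y l) = g (f x) y) {ρ : ℝ} (hρ : 0 < ρ)
    (hlow : ∀ x y, ¬ E x y → -(2 * ρ) ≤ g x y) (b : X) (n : ℕ) (c c' : X)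
    (h : ∀ j ≤ n, ¬ E (f^[j] c) b ∧ g (f^[j] c) b ≤ 2 * ρ)
    (h' : ∀ j ≤ n, ¬ E (f^[j] c') b ∧ g (f^[j] c') b ≤ 2 * ρ) (l m : ℕ) (hlm : l ≤ m)
    (hm : m ≤ n) :
    (Av r)^[n] (fun y => g (f^[l] y) c * g (f^[m] y) c') b ≤
      (1 / 2) ^ (m - l) * (17 * d ^ 2 * ρ ^ 2) := by
  have hd2 : (2 : ℝ) ≤ d := by exact_mod_cast hd
  obtain ⟨s, rfl⟩ := Nat.exists_eq_add_of_le hlm
  obtain ⟨t, rfl⟩ := Nat.exists_eq_add_of_le hm
  have e1 : l + s + t = t + s + l := by ring
  have e2 : l + s - l = s := by omega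
  rw [e2]
  -- remove the first l steps
  have h1 : (Av r)^[l + s + t] (fun y => g (f^[l] y) c * g (f^[l + s] y) c') b =
      (Av r)^[t + s] (fun y => g y c * g (f^[s] y) c') b := by
    rw [e1, Function.iterate_add_apply]
    have h2 := it_inv hf hr l (fun _ => 1) (fun y => g y c * g (f^[s] y) c') (by
      intro x y hxy
      rw [hgE _ _ c hxy, hgE _ _ c' (E_iter hf s hxy)])
    have h3 : (fun y => g (f^[l] y) c * g (f^[l + s] y) c') =
        fun y => (1 : ℝ) * (g (f^[l] y) c * g (f^[s] (f^[l] y)) c') := by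
      funext y
      rw [one_mul, ← Function.iterate_add_apply, Nat.add_comm s l]
    rw [h3, h2]
    simp_rw [it_const r hd, mul_one]
  rw [h1, Function.iterate_add_apply]
  have h4 := it_inv hf hr s (fun y => g y c) (fun y => g y c') (by
    intro x y hxy
    exact hgE _ _ c' hxy)
  rw [h4]
  have h5 : (Av r)^[t] (fun y => g y c' * (Av r)^[s] (fun y => g y c) y) b =
      (Av r)^[t] (fun y => (1 / (d : ℝ)) ^ s * (g (f^[s] c) y * g c' y)) b := by
    apply it_congr hE hf hr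
    intro y hy
    have h6 : ¬ E (f^[s] c) y := by
      intro h7
      refine (h (t + s) (by omega)).1 ?_
      rw [Function.iterate_add_apply]
      exact hE.trans (E_iter hf t h7) hy
    have h8 := it_g hE hf hr hg s c y h6
    have h9 : (fun y => g c y) = fun y => g y c := by
      funext y
      exact hgs _ _
    rw [h9] at h8
    rw [h8, hgs y c']
    ring
  rw [h5, it_smul]
  have h10 := it_prod hd hE hf hr hg hρ hlow b t (f^[s] c) c' (by
    intro j hj
    rw [← Function.iterate_add_apply]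
    exact h (j + s) (by omega)) (by
    intro j hj
    exact h' j (by omega))
  calc (1 / (d : ℝ)) ^ s * (Av r)^[t] (fun y => g (f^[s] c) y * g c' y) b
      ≤ (1 / (d : ℝ)) ^ s * (17 * d ^ 2 * ρ ^ 2) :=
        mul_le_mul_of_nonneg_left h10 (by positivity)
    _ ≤ (1 / 2) ^ s * (17 * d ^ 2 * ρ ^ 2) := by
        apply mul_le_mul_of_nonneg_right _ (by positivity)
        apply pow_le_pow_left₀ (by positivity)
        apply one_div_le_one_div_of_le (by norm_num) hd2

end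

/-- geometric sums -/
lemma geo_row (l J : ℕ) : (J ≤ l → ∑ m ∈ range J, (1 / 2 : ℝ) ^ ((m - l) + (l - m)) ≤
      (1 / 2) ^ (l - J)) ∧
    (l < J → ∑ m ∈ range J, (1 / 2 : ℝ) ^ ((m - l) + (l - m)) ≤ 3 - (1 / 2) ^ (J - 1 - l)) := by
  induction J with
  | zero => simp
  | succ J ih =>
    rw [sum_range_succ]
    constructor
    · intro h
      obtain ⟨s, rfl⟩ := Nat.exists_eq_add_of_le h
      have h1 := ih.1 (by omega)
      have e1 : J + 1 + s - J = s + 1 := by omega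
      have e2 : J - (J + 1 + s) + (J + 1 + s - J) = s + 1 := by omega
      have e3 : J + 1 + s - (J + 1) = s := by omega
      rw [e1] at h1
      rw [e2, e3]
      rw [pow_succ] at h1 ⊢
      linarith
    · intro h
      rcases Nat.lt_or_ge l J with h2 | h2
      · obtain ⟨s, rfl⟩ := Nat.exists_eq_add_of_lt h2
        have h1 := ih.2 h2
        have e1 : l + s + 1 - 1 - l = s := by omega
        have e2 : l + s + 1 - l + (l - (l + s + 1)) = s + 1 := by omega
        have e3 : l + s + 1 + 1 - 1 - l = s + 1 := by omega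
        rw [e1] at h1
        rw [e2, e3]
        rw [pow_succ]
        linarith
      · have h3 : l = J := by omega
        subst h3
        have h1 := ih.1 le_rfl
        simp at h1 ⊢
        linarith

lemma geo_sum (J : ℕ) : ∑ l ∈ range J, ∑ m ∈ range J, (1 / 2 : ℝ) ^ ((m - l) + (l - m)) ≤
    3 * J := by
  calc ∑ l ∈ range J, ∑ m ∈ range J, (1 / 2 : ℝ) ^ ((m - l) + (l - m))
      ≤ ∑ l ∈ range J, (3 : ℝ) := by
        apply sum_le_sum
        intro l hl
        have h := (geo_row l J).2 (mem_range.1 hl)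
        have : (0 : ℝ) < (1 / 2) ^ (J - 1 - l) := by positivity
        linarith
    _ = 3 * J := by
        rw [sum_const, card_range, nsmul_eq_mul]
        ring

theorem t_LLN : S_LLN.{u} := by
  classical
  intro X d hd f r E hE hf hr g hgs hgE hg ρ hρ hlow c₁ c₂ L κ hL hκ0 hκd b n hc J hJ hJn
  have hd2 : (2 : ℝ) ≤ d := by exact_mod_cast hd
  have hLp : 0 < L := by linarith
  have hJp : (0 : ℝ) < J := by exact_mod_cast hJ
  have hc1 : ∀ j ≤ n, ¬ E (f^[j] c₁) b ∧ g (f^[j] c₁) b ≤ 2 * ρ := fun j hj => (hc j hj).1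
  have hc2 : ∀ j ≤ n, ¬ E (f^[j] c₂) b ∧ g (f^[j] c₂) b ≤ 2 * ρ := fun j hj => (hc j hj).2
  have hcorr : ∀ c c' : X, (∀ j ≤ n, ¬ E (f^[j] c) b ∧ g (f^[j] c) b ≤ 2 * ρ) →
      (∀ j ≤ n, ¬ E (f^[j] c') b ∧ g (f^[j] c') b ≤ 2 * ρ) → ∀ l < J, ∀ m < J,
      (Av r)^[n] (fun y => g (f^[l] y) c * g (f^[m] y) c') b ≤
      (1 / 2) ^ ((m - l) + (l - m)) * (17 * d ^ 2 * ρ ^ 2) := by
    intro c c' h h' l hl m hm
    rcases le_total l m with hlm | hlm
    · have := it_corr hd hE hf hr hgs hgE hg hρ hlow b n c c' h h' l m hlm (by omega)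
      have e : m - l + (l - m) = m - l := by omega
      rw [e]
      exact this
    · have := it_corr hd hE hf hr hgs hgE hg hρ hlow b n c' c h' h m l hlm (by omega)
      have e : m - l + (l - m) = l - m := by omega
      rw [e]
      have e2 : (fun y => g (f^[l] y) c * g (f^[m] y) c') =
          fun y => g (f^[m] y) c' * g (f^[l] y) c := by
        funext y
        ring
      rw [e2]
      exact this
  set D : X → ℝ := fun y => ∑ j ∈ range J, (g (f^[j] y) c₁ + g (f^[j] y) c₂) with hD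
  have hsq : (Av r)^[n] (fun y => D y ^ 2) b ≤ 4 * (3 * J) * (17 * d ^ 2 * ρ ^ 2) := by
    have e1 : (fun y => D y ^ 2) = fun y => ∑ l ∈ range J, ∑ m ∈ range J,
        ((g (f^[l] y) c₁ * g (f^[m] y) c₁ + g (f^[l] y) c₁ * g (f^[m] y) c₂) +
        (g (f^[l] y) c₂ * g (f^[m] y) c₁ + g (f^[l] y) c₂ * g (f^[m] y) c₂)) := by
      funext y
      rw [hD, sq, sum_mul_sum]
      apply sum_congr rfl
      intro l _
      apply sum_congr rfl
      intro m _
      ring
    rw [e1, it_sum]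
    have e2 : ∀ l ∈ range J, (Av r)^[n] (fun y => ∑ m ∈ range J,
        ((g (f^[l] y) c₁ * g (f^[m] y) c₁ + g (f^[l] y) c₁ * g (f^[m] y) c₂) +
        (g (f^[l] y) c₂ * g (f^[m] y) c₁ + g (f^[l] y) c₂ * g (f^[m] y) c₂))) b ≤
        ∑ m ∈ range J, (1 / 2) ^ ((m - l) + (l - m)) * (4 * (17 * d ^ 2 * ρ ^ 2)) := by
      intro l hl
      rw [it_sum]
      apply sum_le_sum
      intro m hm
      rw [mem_range] at hl hm
      rw [it_add r n (fun y => g (f^[l] y) c₁ * g (f^[m] y) c₁ + g (f^[l] y) c₁ * g (f^[m] y) c₂)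
        (fun y => g (f^[l] y) c₂ * g (f^[m] y) c₁ + g (f^[l] y) c₂ * g (f^[m] y) c₂),
        it_add r n (fun y => g (f^[l] y) c₁ * g (f^[m] y) c₁)
          (fun y => g (f^[l] y) c₁ * g (f^[m] y) c₂),
        it_add r n (fun y => g (f^[l] y) c₂ * g (f^[m] y) c₁)
          (fun y => g (f^[l] y) c₂ * g (f^[m] y) c₂)]
      have a1 := hcorr c₁ c₁ hc1 hc1 l hl m hm
      have a2 := hcorr c₁ c₂ hc1 hc2 l hl m hm
      have a3 := hcorr c₂ c₁ hc2 hc1 l hl m hm
      have a4 := hcorr c₂ c₂ hc2 hc2 l hl m hm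
      linarith
    refine (sum_le_sum e2).trans ?_
    simp_rw [← sum_mul]
    have h3 := geo_sum J
    have h4 : 0 ≤ 4 * (17 * (d : ℝ) ^ 2 * ρ ^ 2) := by positivity
    have h5 := mul_le_mul_of_nonneg_right h3 h4
    linarith
  -- Chebyshev
  have hJL : 0 < J * L / 2 := by positivity
  have hch : (Av r)^[n] (fun y => if ∑ j ∈ range J, (L - κ * (g (f^[j] y) c₁ + g (f^[j] y) c₂)) ≤
      J * L / 2 then (1 : ℝ) else 0) b ≤
      (Av r)^[n] (fun y => (κ ^ 2 / (J * L / 2) ^ 2) * D y ^ 2) b := by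
    apply it_mono hE hf hr
    intro y _
    split_ifs with hy
    · rw [sum_sub_distrib, sum_const, card_range, nsmul_eq_mul, ← mul_sum] at hy
      have h6 : J * L / 2 ≤ κ * D y := by
        simp only [hD]
        linarith
      rw [div_mul_eq_mul_div, le_div_iff₀ (by positivity), one_mul, ← mul_pow]
      exact pow_le_pow_left₀ hJL.le h6 2
    · positivity
  refine hch.trans ?_
  rw [it_smul]
  have h7 : (κ ^ 2 / (J * L / 2) ^ 2) * (Av r)^[n] (fun y => D y ^ 2) b ≤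
      (κ ^ 2 / (J * L / 2) ^ 2) * (4 * (3 * J) * (17 * d ^ 2 * ρ ^ 2)) :=
    mul_le_mul_of_nonneg_left hsq (by positivity)
  refine h7.trans ?_
  rw [div_mul_eq_mul_div, div_le_div_iff₀ (by positivity) hJp]
  have h8 : κ ^ 2 ≤ (d : ℝ) ^ 2 := pow_le_pow_left₀ hκ0 hκd 2
  have h9 : ρ ^ 2 ≤ 16 * L ^ 2 := by nlinarith
  have h10 : κ ^ 2 * ρ ^ 2 ≤ (d : ℝ) ^ 2 * (16 * L ^ 2) :=
    mul_le_mul h8 h9 (by positivity) (by positivity)
  have h11 : (0 : ℝ) ≤ 204 * (d : ℝ) ^ 2 * J ^ 2 := by positivity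
  have h12 := mul_le_mul_of_nonneg_left h10 h11
  have h13 : 0 ≤ (d : ℝ) ^ 4 * J ^ 2 * L ^ 2 := by positivity
  nlinarith

end Pool.Agent.E8helper71.CP.Y165.BI
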